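import Pool.Agent.Lib.MP_7d449a_al.Tidy

/-!
MP_7d449a_al, helper97: van Dantzig, the relative contraction lemma (D) for a compact invariant
subgroup, and (E): open subgroups normalised by g modulo a normal subgroup containing con(g) and
con(g⁻¹).
-/

set_option autoImplicit false

namespace Pool.Agent.Lib.MP7d449a

open Set Filter Topology Pointwise

variable {G : Type*} [Group G] [TopologicalSpace G] [IsTopologicalGroup G] [T2Space G]

/-- van Dantzig. -/
theorem vanDantzig [LocallyCompactSpace G] [TotallyDisconnectedSpace G] {W : Set G}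
    (hW : W ∈ 𝓝 (1 : G)) :
    ∃ H : Subgroup G, IsOpen (H : Set G) ∧ IsCompact (H : Set G) ∧ (H : Set G) ⊆ W := by
  obtain ⟨s, hs, h1s, hsW⟩ := exists_compact_subset isOpen_interior (mem_interior_iff_mem_nhds.2 hW)
  have hsW : s ⊆ W := hsW.trans interior_subset
  obtain ⟨B, hB, h1B, hBs⟩ :=
    (loc_compact_Haus_tot_disc_of_zero_dim (H := G)).exists_subset_of_mem_open h1s isOpen_interior
  have hB : IsClopen B := hB
  have hBc : IsCompact B := hs.of_isClosed_subset hB.isClosed (hBs.trans interior_subset)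
  obtain ⟨T, hT, hBT⟩ := compact_open_separated_mul_right hBc hB.isOpen (Subset.refl B)
  let H : Subgroup G :=
    { carrier := {g | ∀ b, b * g ∈ B ↔ b ∈ B}
      mul_mem' := by
        intro g h hg hh b
        rw [← mul_assoc]
        exact (hh (b * g)).trans (hg b)
      one_mem' := by
        intro b
        rw [mul_one]
      inv_mem' := by
        intro g hg b
        have := hg (b * g⁻¹)
        rw [inv_mul_cancel_right] at this
        exact this.symm }
  have hHB : (H : Set G) ⊆ B := by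
    intro g hg
    have := (hg 1).2 h1B
    rwa [one_mul] at this
  have hHo : IsOpen (H : Set G) := by
    refine Subgroup.isOpen_of_mem_nhds H (g := 1) ?_
    filter_upwards [hT, inv_mem_nhds_one G hT] with g hg hg' b
    constructor
    · intro hb
      have := hBT (mul_mem_mul hb hg')
      rwa [mul_inv_cancel_right] at this
    · intro hb
      exact hBT (mul_mem_mul hb hg)
  exact ⟨H, hHo, hBc.of_isClosed_subset (Subgroup.isClosed_of_isOpen H hHo) hHB,
    hHB.trans ((hBs.trans interior_subset).trans hsW)⟩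

theorem ToK.mul_right {α : MulAut G} {K : Subgroup G} (hKi : Inv α K) {y k : G}
    (hy : ToK α K y) (hk : k ∈ K) (hKc : IsCompact (K : Set G)) : ToK α K (y * k) := by
  intro O hO hKO
  obtain ⟨T, hT, hTO⟩ := compact_open_separated_mul_left hKc hO hKO
  have h1 : ∀ᶠ i : ℕ in atTop, (α ^ (i : ℤ)) y ∈ interior T * (K : Set G) := by
    refine hy _ isOpen_interior.mul_right ?_
    intro g hg
    exact ⟨1, mem_interior_iff_mem_nhds.2 hT, g, hg, one_mul g⟩
  filter_upwards [h1] with i hi
  obtain ⟨t, ht, g, hg, e⟩ := hi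
  have e : t * g = (α ^ (i : ℤ)) y := e
  rw [map_mul, ← e, mul_assoc]
  exact hTO (mul_mem_mul (interior_subset ht) (K.mul_mem hg (hKi _ _ hk)))

/-- A pair (y, K') with K' closed, invariant, and the forward orbit of y converging to K'. -/
structure Good (α : MulAut G) (K' : Subgroup G) (y : G) : Prop where
  cl : IsClosed (K' : Set G)
  inv : Inv α K'
  tok : ToK α K' y

/-- The left coset of K' through y. -/
def cos (K' : Subgroup G) (y : G) : Set G := {z | y⁻¹ * z ∈ K'}

omit [TopologicalSpace G] [IsTopologicalGroup G] [T2Space G] in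
theorem cos_eq {K' : Subgroup G} {y z : G} (h : z ∈ cos K' y) : cos K' y = cos K' z := by
  ext w
  show y⁻¹ * w ∈ K' ↔ z⁻¹ * w ∈ K'
  have h : y⁻¹ * z ∈ K' := h
  have e : y⁻¹ * w = (y⁻¹ * z) * (z⁻¹ * w) := by group
  rw [e]
  exact K'.mul_mem_cancel_left h

omit [TopologicalSpace G] [IsTopologicalGroup G] [T2Space G] in
theorem self_mem_cos (K' : Subgroup G) (y : G) : y ∈ cos K' y := by
  show y⁻¹ * y ∈ K'
  rw [inv_mul_cancel]
  exact K'.one_mem

omit [T2Space G] in
theorem cos_closed {K' : Subgroup G} (h : IsClosed (K' : Set G)) (y : G) :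
    IsClosed (cos K' y) := h.preimage (by fun_prop : Continuous fun z => y⁻¹ * z)

theorem cos_compact {K' : Subgroup G} (h : IsCompact (K' : Set G)) (y : G) :
    IsCompact (cos K' y) := by
  have : cos K' y = (fun z => y * z) '' (K' : Set G) := by
    ext w
    constructor
    · intro hw
      exact ⟨y⁻¹ * w, hw, by simp⟩
    · rintro ⟨z, hz, rfl⟩
      show y⁻¹ * (y * z) ∈ K'
      rw [inv_mul_cancel_left]
      exact hz
  rw [this]
  exact h.image (by fun_prop)

omit [TopologicalSpace G] [IsTopologicalGroup G] [T2Space G] in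
theorem cos_subset_iff {K' K'' : Subgroup G} {y : G} : cos K' y ⊆ cos K'' y ↔ K' ≤ K'' := by
  constructor
  · intro h z hz
    have : y * z ∈ cos K'' y := h (by
      show y⁻¹ * (y * z) ∈ K'
      rw [inv_mul_cancel_left]
      exact hz)
    have h2 : y⁻¹ * (y * z) ∈ K'' := this
    rwa [inv_mul_cancel_left] at h2
  · intro h z hz
    exact h hz

/-- (D): Baumgartner-Willis for compact K. -/
theorem contract [LocallyCompactSpace G] [TotallyDisconnectedSpace G] {α : MulAut G}
    (hα : Cont α) {K : Subgroup G} (hK : IsCompact (K : Set G))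
    (hKi : Inv α K) {x : G} (hx : ToK α K x) :
    ∃ k ∈ K, Tendsto (fun i : ℕ => (α ^ (i : ℤ)) (x * k)) atTop (𝓝 1) := by
  let S : Set (Set G) := {Z | ∃ (y : G) (K' : Subgroup G), K' ≤ K ∧ Good α K' y ∧
    x⁻¹ * y ∈ K ∧ Z = cos K' y}
  have hxS : cos K x ∈ S := ⟨x, K, le_refl _, ⟨hK.isClosed, hKi, hx⟩, by simp, rfl⟩
  obtain ⟨Z, -, hZ⟩ := zorn_superset_nonempty S (by
    intro c hcS hc hcn
    have hne : (⋂₀ c).Nonempty := by
      have : Nonempty c := hcn.to_subtype
      refine IsCompact.nonempty_sInter_of_directed_nonempty_isCompact_isClosed ?_ ?_ ?_ ?_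
      · intro A hA B hB
        rcases hc.total hA hB with h | h
        · exact ⟨A, hA, Subset.refl _, h⟩
        · exact ⟨B, hB, h, Subset.refl _⟩
      · rintro Z hZ
        obtain ⟨y, K', -, -, -, rfl⟩ := hcS hZ
        exact ⟨y, self_mem_cos K' y⟩
      · rintro Z hZ
        obtain ⟨y, K', hle, hg, -, rfl⟩ := hcS hZ
        exact cos_compact (hK.of_isClosed_subset hg.cl hle) y
      · rintro Z hZ
        obtain ⟨y, K', -, hg, -, rfl⟩ := hcS hZ
        exact cos_closed hg.cl y
    obtain ⟨y, hy⟩ := hne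
    let F : Set (Subgroup G) := {K' | K' ≤ K ∧ Good α K' y ∧ cos K' y ∈ c}
    have hF : ∀ Z ∈ c, ∃ K' ∈ F, Z = cos K' y := by
      intro Z hZ
      obtain ⟨y', K', hle, hg, -, rfl⟩ := hcS hZ
      have hy' : y ∈ cos K' y' := hy _ hZ
      have e := cos_eq hy'
      refine ⟨K', ⟨hle, ⟨hg.cl, hg.inv, ?_⟩, e ▸ hZ⟩, e⟩
      have h1 := ToK.mul_right hg.inv hg.tok hy' (hK.of_isClosed_subset hg.cl hle)
      rwa [mul_inv_cancel_left] at h1
    have hFn : F.Nonempty := by
      obtain ⟨Z, hZ⟩ := hcn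
      obtain ⟨K', hK', -⟩ := hF Z hZ
      exact ⟨K', hK'⟩
    obtain ⟨K₀, hK₀⟩ := hFn
    have hcl : IsClosed ((sInf F : Subgroup G) : Set G) := by
      rw [Subgroup.coe_sInf]
      exact isClosed_biInter fun K' hK' => hK'.2.1.cl
    have hlb : cos (sInf F) y ∈ S := by
      refine ⟨y, sInf F, (sInf_le hK₀).trans hK₀.1, ⟨hcl, ?_, ?_⟩, ?_, rfl⟩
      · intro k z hz
        rw [Subgroup.mem_sInf] at hz ⊢
        exact fun K' hK' => hK'.2.1.inv k z (hz K' hK')
      · intro O hO hFO
        have : Nonempty F := ⟨⟨K₀, hK₀⟩⟩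
        obtain ⟨⟨K', hK'⟩, hsub⟩ := exists_subset_nhds_of_isCompact' (ι := F)
          (V := fun K' => ((K' : Subgroup G) : Set G)) (by
            rintro ⟨A, hA⟩ ⟨B, hB⟩
            rcases hc.total hA.2.2 hB.2.2 with h | h
            · exact ⟨⟨A, hA⟩, Subset.refl _, cos_subset_iff.1 h⟩
            · exact ⟨⟨B, hB⟩, cos_subset_iff.1 h, Subset.refl _⟩)
          (fun A => hK.of_isClosed_subset A.2.2.1.cl A.2.1) (fun A => A.2.2.1.cl) (U := O) (by
            intro z hz
            refine hO.mem_nhds (hFO ?_)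
            rw [mem_iInter] at hz
            exact Subgroup.mem_sInf.2 fun A hA => hz ⟨A, hA⟩)
        exact hK'.2.1.tok O hO hsub
      · obtain ⟨Z, hZ⟩ := hcn
        obtain ⟨y', K', hle, -, hxy, rfl⟩ := hcS hZ
        have h1 : y'⁻¹ * y ∈ K' := hy _ hZ
        have e : x⁻¹ * y = (x⁻¹ * y') * (y'⁻¹ * y) := by group
        rw [e]
        exact K.mul_mem hxy (hle h1)
    refine ⟨_, hlb, fun Z hZ => ?_⟩
    obtain ⟨K', hK', rfl⟩ := hF Z hZ
    exact cos_subset_iff.2 (sInf_le hK')) _ hxS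
  obtain ⟨⟨y, K', hle, hg, hxy, rfl⟩, hmin⟩ := hZ
  have hK'c : IsCompact (K' : Set G) := hK.of_isClosed_subset hg.cl hle
  have hbot : ∀ z ∈ K', z = 1 := by
    intro z₀ hz₀
    by_contra hne
    have hW0 : ({z₀}ᶜ : Set G) ∈ 𝓝 (1 : G) :=
      isOpen_compl_singleton.mem_nhds (by simpa using Ne.symm hne)
    obtain ⟨W, hWo, hWc, hWs⟩ := vanDantzig hW0
    obtain ⟨k, hk, hev⟩ := correct hα hK'c hg.inv hWc hWo hg.tok
    have hto := ToK.mul_right hg.inv hg.tok hk hK'c
    have hgood : Good α (I α K' W univ) (y * k) := by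
      refine ⟨I_closed hα hg.cl hWc.isClosed _, inv_I_univ hg.inv, ?_⟩
      intro O hO hIO
      obtain ⟨J, hJ⟩ : ∃ J : ℕ, (I α K' W (Icc (-(J : ℤ)) J) : Set G) ⊆ O := by
        refine exists_subset_nhds_of_isCompact'
          (V := fun J : ℕ => (I α K' W (Icc (-(J : ℤ)) J) : Set G)) ?_ ?_ ?_ ?_
        · refine directed_of_isDirected_le ?_
          intro a b hab
          have : (a : ℤ) ≤ b := by exact_mod_cast hab
          exact I_anti (Icc_subset_Icc (by linarith) this)
        · intro J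
          exact I_compact hα hg.cl hWc (k := 0) ⟨by simp, by positivity⟩
        · intro J
          exact I_closed hα hg.cl hWc.isClosed _
        · intro z hz
          refine hO.mem_nhds (hIO ?_)
          rw [mem_iInter] at hz
          refine ⟨(hz 0).1, fun j _ => ?_⟩
          have h1 := (hz j.natAbs).2 j
          exact h1 ⟨by omega, by omega⟩
      have hQ : IsClosed (I α ⊤ W (Icc (-(J : ℤ)) J) : Set G) :=
        I_closed hα isClosed_univ hWc.isClosed _
      have h1 := hto (O ∪ (I α ⊤ W (Icc (-(J : ℤ)) J) : Set G)ᶜ) (hO.union hQ.isOpen_compl) (by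
        intro z hz
        by_cases hzQ : z ∈ (I α ⊤ W (Icc (-(J : ℤ)) J) : Set G)
        · exact Or.inl (hJ ⟨hz, hzQ.2⟩)
        · exact Or.inr hzQ)
      obtain ⟨i₀, hi₀⟩ := eventually_atTop.1 hev
      filter_upwards [h1, eventually_ge_atTop (i₀ + J)] with i hi hij
      rcases hi with hi | hi
      · exact hi
      · exfalso
        apply hi
        refine ⟨Subgroup.mem_top _, fun j hj => ?_⟩
        rw [zpow_apply_add]
        have h2 := hi₀ (j + i).toNat (by
          have : (i₀ : ℤ) + J ≤ i := by exact_mod_cast hij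
          have h3 := hj.1
          omega)
        rwa [Int.toNat_of_nonneg (by
          have : (i₀ : ℤ) + J ≤ i := by exact_mod_cast hij
          have h3 := hj.1
          omega)] at h2
    have hsub : cos (I α K' W univ) (y * k) ⊆ cos K' y := by
      intro z hz
      have hz : (y * k)⁻¹ * z ∈ I α K' W univ := hz
      show y⁻¹ * z ∈ K'
      have e : y⁻¹ * z = k * ((y * k)⁻¹ * z) := by group
      rw [e]
      exact K'.mul_mem hk hz.1
    have hmem : cos (I α K' W univ) (y * k) ∈ S :=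
      ⟨y * k, I α K' W univ, fun z hz => hle hz.1, hgood, by
        rw [← mul_assoc]
        exact K.mul_mem hxy (hle hk), rfl⟩
    have h2 : cos K' y ⊆ cos (I α K' W univ) (y * k) := hmin hmem hsub
    have h3 : y * k * z₀ ∈ cos K' y := by
      show y⁻¹ * (y * k * z₀) ∈ K'
      have e : y⁻¹ * (y * k * z₀) = k * z₀ := by group
      rw [e]
      exact K'.mul_mem hk hz₀
    have h4 : (y * k)⁻¹ * (y * k * z₀) ∈ I α K' W univ := h2 h3
    rw [inv_mul_cancel_left] at h4
    have h5 : z₀ ∈ W := by simpa using h4.2 0 (mem_univ _)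
    exact hWs h5 rfl
  refine ⟨x⁻¹ * y, hxy, ?_⟩
  rw [mul_inv_cancel_left]
  intro O hO
  rw [Filter.mem_map]
  obtain ⟨O', hO'O, hO', h1⟩ := mem_nhds_iff.1 hO
  have := hg.tok O' hO' (by
    intro z hz
    rw [hbot z hz]
    exact h1)
  filter_upwards [this] with i hi
  exact hO'O hi

/-- Conjugation by g. -/
theorem cont_conj (g : G) : Cont (MulAut.conj g) := by
  intro k
  have : (fun x => ((MulAut.conj g) ^ k) x) = fun x => g ^ k * x * (g ^ k)⁻¹ := by
    funext x
    rw [← map_zpow, MulAut.conj_apply]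
  rw [this]
  fun_prop

/-- The contraction group of g, as a set. -/
def con (g : G) : Set G := {x | Tendsto (fun n : ℕ => g ^ n * x * (g ^ n)⁻¹) atTop (𝓝 1)}

/-- (D) for points whose forward orbit stays in a compact open subgroup. -/
theorem mem_con_mul [LocallyCompactSpace G] [TotallyDisconnectedSpace G] {g : G} {U : Subgroup G}
    (hU : IsCompact (U : Set G)) {n : ℕ} {w : G}
    (hw : w ∈ I (MulAut.conj g) ⊤ U (Ici (-(n : ℤ)))) :
    ∃ k ∈ I (MulAut.conj g) ⊤ U univ, w * k ∈ con g := by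
  have hα := cont_conj g
  have hKc : IsCompact (I (MulAut.conj g) ⊤ U univ : Set G) :=
    I_compact hα isClosed_univ hU (mem_univ (0 : ℤ))
  have hto : ToK (MulAut.conj g) (I (MulAut.conj g) ⊤ U univ) w := by
    intro O hO hIO
    obtain ⟨J, hJ⟩ : ∃ J : ℕ, (I (MulAut.conj g) ⊤ U (Icc (-(J : ℤ)) J) : Set G) ⊆ O := by
      refine exists_subset_nhds_of_isCompact'
        (V := fun J : ℕ => (I (MulAut.conj g) ⊤ U (Icc (-(J : ℤ)) J) : Set G)) ?_ ?_ ?_ ?_
      · refine directed_of_isDirected_le ?_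
        intro a b hab
        have : (a : ℤ) ≤ b := by exact_mod_cast hab
        exact I_anti (Icc_subset_Icc (by linarith) this)
      · intro J
        exact I_compact hα isClosed_univ hU (k := 0) ⟨by simp, by positivity⟩
      · intro J
        exact I_closed hα isClosed_univ hU.isClosed _
      · intro z hz
        refine hO.mem_nhds (hIO ?_)
        rw [mem_iInter] at hz
        refine ⟨(hz 0).1, fun j _ => ?_⟩
        have h1 := (hz j.natAbs).2 j
        exact h1 ⟨by omega, by omega⟩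
    filter_upwards [eventually_ge_atTop (J + n)] with i hi
    apply hJ
    refine I_shift (inv_top _) ?_ hw
    rintro j ⟨hj1, hj2⟩
    show -(n : ℤ) ≤ j + i
    have : (J : ℤ) + n ≤ i := by exact_mod_cast hi
    linarith
  obtain ⟨k, hk, ht⟩ := contract hα hKc (inv_I_univ (inv_top _)) hto
  refine ⟨k, hk, ?_⟩
  refine ht.congr fun i => ?_
  rw [← map_zpow, MulAut.conj_apply, zpow_natCast]

/-- (E). -/
theorem normalised [LocallyCompactSpace G] [TotallyDisconnectedSpace G] {N : Subgroup G}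
    [N.Normal] {g : G} (h1 : con g ⊆ N) (h2 : con g⁻¹ ⊆ N) {U : Subgroup G}
    (hU : IsCompact (U : Set G)) (hUo : IsOpen (U : Set G)) :
    ∃ V : Subgroup G, V ≤ U ∧ IsOpen (V : Set G) ∧
      ∀ k : ℤ, ∀ x ∈ V ⊔ N, g ^ k * x * (g ^ k)⁻¹ ∈ V ⊔ N := by
  have hα := cont_conj g
  obtain ⟨n, hdec⟩ := tidy hα (K := ⊤) isClosed_univ (inv_top _) hU hUo
  have hle : I (MulAut.conj g) ⊤ U (Icc (-(n : ℤ)) 0) ≤ I (MulAut.conj g) ⊤ U univ ⊔ N := by
    intro x hx
    obtain ⟨u, hu, hw⟩ := hdec x hx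
    obtain ⟨k, hk, hwk⟩ := mem_con_mul hU hw
    have hu' : u ∈ I (MulAut.conj g⁻¹) ⊤ U (Ici (-((0 : ℕ) : ℤ))) := by
      refine ⟨Subgroup.mem_top _, fun j hj => ?_⟩
      rw [map_inv, inv_zpow']
      refine hu.2 (-j) ?_
      show -j ≤ 0
      have : (0 : ℤ) ≤ j := by simpa using hj
      linarith
    obtain ⟨l, hl, hul⟩ := mem_con_mul hU hu'
    have hl' : l ∈ I (MulAut.conj g) ⊤ U univ := by
      refine ⟨Subgroup.mem_top _, fun j _ => ?_⟩
      have := hl.2 (-j) (mem_univ _)
      rwa [map_inv, inv_zpow', neg_neg] at this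
    have e : x = (u * l) * l⁻¹ * ((u⁻¹ * x) * k) * k⁻¹ := by group
    rw [e]
    refine Subgroup.mul_mem _ (Subgroup.mul_mem _ (Subgroup.mul_mem _ ?_ ?_) ?_) ?_
    · exact Subgroup.mem_sup_right (h2 hul)
    · exact Subgroup.mem_sup_left (Subgroup.inv_mem _ hl')
    · exact Subgroup.mem_sup_right (h1 hwk)
    · exact Subgroup.mem_sup_left (Subgroup.inv_mem _ hk)
  have hsup : I (MulAut.conj g) ⊤ U (Icc (-(n : ℤ)) 0) ⊔ N
      = I (MulAut.conj g) ⊤ U univ ⊔ N :=
    le_antisymm (sup_le hle le_sup_right)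
      (sup_le_sup_right (I_anti (subset_univ _)) N)
  refine ⟨I (MulAut.conj g) ⊤ U (Icc (-(n : ℤ)) 0), ?_, I_open hα hUo _ _, ?_⟩
  · intro x hx
    simpa using hx.2 0 ⟨by simp, le_refl _⟩
  · intro k x hx
    rw [hsup, Subgroup.mem_sup_of_normal_right] at hx
    obtain ⟨a, ha, b, hb, rfl⟩ := hx
    rw [hsup]
    have e : g ^ k * (a * b) * (g ^ k)⁻¹ = (g ^ k * a * (g ^ k)⁻¹) * (g ^ k * b * (g ^ k)⁻¹) := by
      group
    rw [e]
    refine Subgroup.mul_mem _ (Subgroup.mem_sup_left ?_)
      (Subgroup.mem_sup_right (Subgroup.Normal.conj_mem inferInstance b hb _))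
    have := inv_I_univ (α := MulAut.conj g) (K := ⊤) (U := U) (inv_top _) k a ha
    rwa [← map_zpow, MulAut.conj_apply] at this

end Pool.Agent.Lib.MP7d449a
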