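import Pool.Agent.Lib.MP_7d449a_al.Contr

/-!
MP_7d449a_al, helper97: bounded generation by the cyclic subgroups of a compact set.
-/

set_option autoImplicit false

namespace Pool.Agent.Lib.MP7d449a

open Set Filter Topology Pointwise

variable {G : Type*} [Group G] [TopologicalSpace G] [IsTopologicalGroup G] [T2Space G]

/-- (F), first step: equicontinuity of all powers of a compact set, modulo N. -/
theorem one_step [LocallyCompactSpace G] [TotallyDisconnectedSpace G] {C : Set G}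
    (hC : IsCompact C) {N : Subgroup G} [N.Normal] (hN : ∀ c ∈ C, con c ⊆ N ∧ con c⁻¹ ⊆ N)
    {O : Subgroup G} (hO : IsOpen (O : Set G)) (hNO : N ≤ O) :
    ∃ O' : Subgroup G, IsOpen (O' : Set G) ∧ N ≤ O' ∧ O' ≤ O ∧
      ∀ c ∈ C, ∀ k : ℤ, ∀ x ∈ O', c ^ k * x * (c ^ k)⁻¹ ∈ O := by
  refine hC.induction_on (p := fun S => ∃ O' : Subgroup G, IsOpen (O' : Set G) ∧ N ≤ O' ∧
    O' ≤ O ∧ ∀ c ∈ S, ∀ k : ℤ, ∀ x ∈ O', c ^ k * x * (c ^ k)⁻¹ ∈ O) ?_ ?_ ?_ ?_
  · exact ⟨O, hO, hNO, le_refl _, fun c hc => absurd hc (notMem_empty c)⟩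
  · rintro S T hST ⟨O', h1, h2, h3, h4⟩
    exact ⟨O', h1, h2, h3, fun c hc => h4 c (hST hc)⟩
  · rintro S T ⟨O₁, h1, h2, h3, h4⟩ ⟨O₂, g1, g2, g3, g4⟩
    refine ⟨O₁ ⊓ O₂, h1.inter g1, le_inf h2 g2, inf_le_left.trans h3, ?_⟩
    rintro c (hc | hc) k x hx
    · exact h4 c hc k x hx.1
    · exact g4 c hc k x hx.2
  · intro c hc
    obtain ⟨U, hUo, hUc, hUO⟩ := vanDantzig (hO.mem_nhds O.one_mem)
    obtain ⟨V, hVU, hVo, hV⟩ := normalised (hN c hc).1 (hN c hc).2 hUc hUo
    have hle : V ⊔ N ≤ O := sup_le (hVU.trans hUO) hNO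
    have hOo : IsOpen ((V ⊔ N : Subgroup G) : Set G) := Subgroup.isOpen_mono le_sup_left hVo
    have hcn : c ∈ Subgroup.normalizer ((V ⊔ N : Subgroup G) : Set G) := by
      rw [Subgroup.mem_normalizer_iff]
      intro y
      constructor
      · intro hy
        simpa using hV 1 y hy
      · intro hy
        have := hV (-1) _ hy
        have e : c ^ (-1 : ℤ) * (c * y * c⁻¹) * (c ^ (-1 : ℤ))⁻¹ = y := by group
        rwa [e] at this
    refine ⟨(fun o => c⁻¹ * o) ⁻¹' ((V ⊔ N : Subgroup G) : Set G), ?_, V ⊔ N, hOo, le_sup_right,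
      hle, ?_⟩
    · refine mem_nhdsWithin_of_mem_nhds ((hOo.preimage (by fun_prop)).mem_nhds ?_)
      show c⁻¹ * c ∈ V ⊔ N
      rw [inv_mul_cancel]
      exact Subgroup.one_mem _
    · intro d hd k x hx
      have hd : c⁻¹ * d ∈ V ⊔ N := hd
      have hdn : d ∈ Subgroup.normalizer ((V ⊔ N : Subgroup G) : Set G) := by
        have e : d = c * (c⁻¹ * d) := by group
        rw [e]
        exact Subgroup.mul_mem _ hcn (Subgroup.le_normalizer hd)
      have hdk := Subgroup.zpow_mem _ hdn k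
      rw [Subgroup.mem_normalizer_iff] at hdk
      exact hle ((hdk x).1 hx)

/-- The products of at most m integer powers of elements of C. -/
def powerProducts (C : Set G) (m : ℕ) : Set G :=
  {x | ∃ l : List G, l.length ≤ m ∧ (∀ y ∈ l, ∃ c ∈ C, ∃ k : ℤ, c ^ k = y) ∧ l.prod = x}

/-- (F), iterated. -/
theorem many_steps [LocallyCompactSpace G] [TotallyDisconnectedSpace G] {C : Set G}
    (hC : IsCompact C) {N : Subgroup G} [N.Normal] (hN : ∀ c ∈ C, con c ⊆ N ∧ con c⁻¹ ⊆ N)
    (m : ℕ) {O : Subgroup G} (hO : IsOpen (O : Set G)) (hNO : N ≤ O) :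
    ∃ O' : Subgroup G, IsOpen (O' : Set G) ∧ N ≤ O' ∧
      ∀ p ∈ powerProducts C m, ∀ x ∈ O', p⁻¹ * x * p ∈ O := by
  induction m with
  | zero =>
    refine ⟨O, hO, hNO, ?_⟩
    rintro p ⟨l, hl, -, rfl⟩ x hx
    obtain rfl : l = [] := List.length_eq_zero_iff.1 (by omega)
    simpa using hx
  | succ m ih =>
    obtain ⟨O₁, h1, h2, h3⟩ := ih
    obtain ⟨O₂, g1, g2, g3, g4⟩ := one_step hC hN h1 h2
    refine ⟨O₂, g1, g2, ?_⟩
    rintro p ⟨l, hl, hlc, rfl⟩ x hx
    cases l with
    | nil => exact h3 _ ⟨[], by simp, by simp, rfl⟩ x (g3 hx)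
    | cons y l =>
      obtain ⟨c, hc, k, hck⟩ := hlc y (by simp)
      have h4 : y⁻¹ * x * y ∈ O₁ := by
        have := g4 c hc (-k) x hx
        rwa [zpow_neg, hck, inv_inv] at this
      have h5 := h3 l.prod ⟨l, by simpa using hl, fun z hz => hlc z (by simp [hz]), rfl⟩ _ h4
      have e : (y :: l).prod⁻¹ * x * (y :: l).prod = l.prod⁻¹ * (y⁻¹ * x * y) * l.prod := by
        rw [List.prod_cons]
        group
      rw [e]
      exact h5

/-- The normal core of an open subgroup containing N is open. -/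
theorem core_open [LocallyCompactSpace G] [TotallyDisconnectedSpace G] {C : Set G}
    (hC : IsCompact C) {m : ℕ} (hd : Dense (powerProducts C m)) {N : Subgroup G} [N.Normal]
    (hN : ∀ c ∈ C, con c ⊆ N ∧ con c⁻¹ ⊆ N) {O : Subgroup G} (hO : IsOpen (O : Set G))
    (hNO : N ≤ O) : IsOpen (O.normalCore : Set G) := by
  obtain ⟨O', h1, h2, h3⟩ := many_steps hC hN m hO hNO
  refine Subgroup.isOpen_mono (H₁ := O') ?_ h1
  intro x hx
  show ∀ b : G, b * x * b⁻¹ ∈ O
  intro b
  have ho : IsOpen ((fun y => y⁻¹ * b⁻¹) ⁻¹' (O : Set G)) := hO.preimage (by fun_prop)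
  obtain ⟨p, hp, hpd⟩ := hd.inter_open_nonempty _ ho ⟨b⁻¹, by
    show (b⁻¹)⁻¹ * b⁻¹ ∈ O
    rw [inv_mul_cancel]
    exact O.one_mem⟩
  have hp : p⁻¹ * b⁻¹ ∈ O := hp
  have h4 := h3 p hpd x hx
  have e : b * x * b⁻¹ = (p⁻¹ * b⁻¹)⁻¹ * (p⁻¹ * x * p) * (p⁻¹ * b⁻¹) := by group
  rw [e]
  exact O.mul_mem (O.mul_mem (O.inv_mem hp) h4) hp

/-- The Tits core: the subgroup generated by all contraction groups. -/
def titsCore (G : Type*) [Group G] [TopologicalSpace G] : Subgroup G :=
  Subgroup.closure (⋃ g : G, {x : G | Tendsto (fun n : ℕ => g ^ n * x * (g ^ n)⁻¹) atTop (𝓝 1)})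

/-- The discrete residual: the intersection of all open normal subgroups. -/
def discreteResidual (G : Type*) [Group G] [TopologicalSpace G] : Subgroup G :=
  sInf {H : Subgroup G | IsOpen (H : Set G) ∧ H.Normal}

omit [T2Space G] in
theorem residual_closed : IsClosed (discreteResidual G : Set G) := by
  rw [discreteResidual, Subgroup.coe_sInf]
  exact isClosed_biInter fun H hH => Subgroup.isClosed_of_isOpen H hH.1

omit [IsTopologicalGroup G] [T2Space G] in
theorem residual_normal : (discreteResidual G).Normal := by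
  constructor
  intro n hn g
  rw [discreteResidual, Subgroup.mem_sInf] at hn ⊢
  exact fun H hH => hH.2.conj_mem n (hn H hH) g

omit [IsTopologicalGroup G] [T2Space G] in
theorem con_sub_residual (g : G) : con g ⊆ discreteResidual G := by
  intro x hx
  show x ∈ sInf {H : Subgroup G | IsOpen (H : Set G) ∧ H.Normal}
  rw [Subgroup.mem_sInf]
  intro H hH
  have hx : Tendsto (fun n : ℕ => g ^ n * x * (g ^ n)⁻¹) atTop (𝓝 1) := hx
  obtain ⟨n, hn⟩ := (hx.eventually (hH.1.mem_nhds H.one_mem)).exists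
  have := hH.2.conj_mem _ hn (g ^ n)⁻¹
  have e : (g ^ n)⁻¹ * (g ^ n * x * (g ^ n)⁻¹) * (g ^ n)⁻¹⁻¹ = x := by group
  rwa [e] at this

omit [IsTopologicalGroup G] [T2Space G] in
theorem titsCore_le_residual : titsCore G ≤ discreteResidual G := by
  rw [titsCore, Subgroup.closure_le]
  exact iUnion_subset fun g => con_sub_residual g

omit [T2Space G] in
theorem titsCore_normal : (titsCore G).Normal := by
  constructor
  intro x hx h
  induction hx using Subgroup.closure_induction with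
  | mem y hy =>
    obtain ⟨g, hg⟩ := mem_iUnion.1 hy
    have hg : Tendsto (fun n : ℕ => g ^ n * y * (g ^ n)⁻¹) atTop (𝓝 1) := hg
    refine Subgroup.subset_closure (mem_iUnion.2 ⟨h * g * h⁻¹, ?_⟩)
    have h1 : Tendsto (fun n : ℕ => h * (g ^ n * y * (g ^ n)⁻¹) * h⁻¹) atTop
        (𝓝 (h * 1 * h⁻¹)) := (tendsto_const_nhds.mul hg).mul tendsto_const_nhds
    rw [mul_one, mul_inv_cancel] at h1
    refine h1.congr fun n => ?_
    rw [conj_pow]
    group
  | one => simp
  | mul y z _ _ hy hz =>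
    have e : h * (y * z) * h⁻¹ = (h * y * h⁻¹) * (h * z * h⁻¹) := by group
    rw [e]
    exact Subgroup.mul_mem _ hy hz
  | inv y _ hy =>
    have e : h * y⁻¹ * h⁻¹ = (h * y * h⁻¹)⁻¹ := by group
    rw [e]
    exact Subgroup.inv_mem _ hy

/-- The discrete residual is contained in every closed normal subgroup containing the
contraction groups of the elements of C and their inverses. -/
theorem residual_le [LocallyCompactSpace G] [TotallyDisconnectedSpace G] {C : Set G}
    (hC : IsCompact C) {m : ℕ} (hd : Dense (powerProducts C m)) {N : Subgroup G}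
    (hNn : N.Normal) (hNc : IsClosed (N : Set G)) (hN : ∀ c ∈ C, con c ⊆ N ∧ con c⁻¹ ⊆ N) :
    discreteResidual G ≤ N := by
  intro x hx
  by_contra hxN
  have hW : {w : G | w⁻¹ * x ∈ (N : Set G)ᶜ} ∈ 𝓝 (1 : G) := by
    have : IsOpen {w : G | w⁻¹ * x ∈ (N : Set G)ᶜ} :=
      hNc.isOpen_compl.preimage (by fun_prop : Continuous fun w : G => w⁻¹ * x)
    refine this.mem_nhds ?_
    show (1 : G)⁻¹ * x ∈ (N : Set G)ᶜ
    rw [inv_one, one_mul]
    exact hxN
  obtain ⟨U, hUo, hUc, hUW⟩ := vanDantzig hW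
  have hO : IsOpen ((U ⊔ N : Subgroup G) : Set G) := Subgroup.isOpen_mono le_sup_left hUo
  have h1 := core_open hC hd hN hO le_sup_right
  have h2 : x ∈ (U ⊔ N).normalCore :=
    Subgroup.mem_sInf.1 hx _ ⟨h1, Subgroup.normalCore_normal _⟩
  have h3 : x ∈ U ⊔ N := Subgroup.normalCore_le _ h2
  rw [Subgroup.mem_sup_of_normal_right] at h3
  obtain ⟨u, hu, n, hn, rfl⟩ := h3
  have h4 : u⁻¹ * (u * n) ∈ (N : Set G)ᶜ := hUW hu
  rw [inv_mul_cancel_left] at h4
  exact h4 hn

theorem residual_eq [LocallyCompactSpace G] [TotallyDisconnectedSpace G] {C : Set G}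
    (hC : IsCompact C) {m : ℕ} (hd : Dense (powerProducts C m)) :
    (discreteResidual G : Set G) = closure (titsCore G : Set G) := by
  have hn : (titsCore G).Normal := titsCore_normal
  have h1 : discreteResidual G ≤ (titsCore G).topologicalClosure := by
    refine residual_le hC hd (Subgroup.is_normal_topologicalClosure _)
      (Subgroup.isClosed_topologicalClosure _) fun c _ => ⟨?_, ?_⟩
    · intro x hx
      exact Subgroup.le_topologicalClosure _ (Subgroup.subset_closure (mem_iUnion.2 ⟨c, hx⟩))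
    · intro x hx
      exact Subgroup.le_topologicalClosure _ (Subgroup.subset_closure (mem_iUnion.2 ⟨c⁻¹, hx⟩))
  refine Subset.antisymm ?_ (closure_minimal titsCore_le_residual residual_closed)
  intro x hx
  exact h1 hx

theorem small_normal [LocallyCompactSpace G] [TotallyDisconnectedSpace G] {C : Set G}
    (hC : IsCompact C) {m : ℕ} (hd : Dense (powerProducts C m)) {W : Set G}
    (hW : W ∈ 𝓝 (1 : G)) :
    ∃ H : Subgroup G, H.Normal ∧ IsOpen (H : Set G) ∧
      (H : Set G) ⊆ W * (discreteResidual G : Set G) := by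
  obtain ⟨U, hUo, hUc, hUW⟩ := vanDantzig hW
  have hn : (discreteResidual G).Normal := residual_normal
  have hO : IsOpen ((U ⊔ discreteResidual G : Subgroup G) : Set G) :=
    Subgroup.isOpen_mono le_sup_left hUo
  have h1 := core_open hC hd (N := discreteResidual G)
    (fun c _ => ⟨con_sub_residual c, con_sub_residual c⁻¹⟩) hO le_sup_right
  refine ⟨_, Subgroup.normalCore_normal _, h1, fun x hx => ?_⟩
  have h3 : x ∈ U ⊔ discreteResidual G := Subgroup.normalCore_le _ hx
  rw [Subgroup.mem_sup_of_normal_right] at h3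
  obtain ⟨u, hu, n, hn, rfl⟩ := h3
  exact mul_mem_mul (hUW hu) hn

end Pool.Agent.Lib.MP7d449a
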