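import Mathlib

/-!
MP_7d449a_al, helper97: tidy above, shadowing, the relative contraction lemma of
Baumgartner-Willis for a compact invariant subgroup.
-/

set_option autoImplicit false

namespace Pool.Agent.Lib.MP7d449a

open Set Filter Topology Pointwise

section Algebra

variable {G : Type*} [Group G]

/-- The subgroup of all x in K with (α ^ k) x in U for all k in S. -/
def I (α : MulAut G) (K U : Subgroup G) (S : Set ℤ) : Subgroup G where
  carrier := {x | x ∈ K ∧ ∀ k ∈ S, (α ^ k) x ∈ U}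
  mul_mem' := by
    rintro a b ⟨ha, ha'⟩ ⟨hb, hb'⟩
    refine ⟨K.mul_mem ha hb, fun k hk => ?_⟩
    rw [map_mul]
    exact U.mul_mem (ha' k hk) (hb' k hk)
  one_mem' := ⟨K.one_mem, fun k _ => by rw [map_one]; exact U.one_mem⟩
  inv_mem' := by
    rintro a ⟨ha, ha'⟩
    refine ⟨K.inv_mem ha, fun k hk => ?_⟩
    rw [map_inv]
    exact U.inv_mem (ha' k hk)

theorem mem_I {α : MulAut G} {K U : Subgroup G} {S : Set ℤ} {x : G} :
    x ∈ I α K U S ↔ x ∈ K ∧ ∀ k ∈ S, (α ^ k) x ∈ U := Iff.rfl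

theorem I_anti {α : MulAut G} {K U : Subgroup G} {S T : Set ℤ} (h : S ⊆ T) :
    I α K U T ≤ I α K U S := fun _ hx => ⟨hx.1, fun k hk => hx.2 k (h hk)⟩

theorem zpow_apply_add (α : MulAut G) (a b : ℤ) (x : G) :
    (α ^ a) ((α ^ b) x) = (α ^ (a + b)) x := by
  rw [zpow_add, MulAut.mul_apply]

/-- K is invariant under all powers of α. -/
def Inv (α : MulAut G) (K : Subgroup G) : Prop := ∀ k : ℤ, ∀ x ∈ K, (α ^ k) x ∈ K

theorem I_shift {α : MulAut G} {K U : Subgroup G} (hK : Inv α K) {S T : Set ℤ} {j : ℤ}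
    (h : ∀ k ∈ T, k + j ∈ S) {x : G} (hx : x ∈ I α K U S) : (α ^ j) x ∈ I α K U T := by
  refine ⟨hK j x hx.1, fun k hk => ?_⟩
  rw [zpow_apply_add]
  exact hx.2 _ (h k hk)

theorem inv_top (α : MulAut G) : Inv α (⊤ : Subgroup G) := fun _ _ _ => Subgroup.mem_top _

theorem inv_I_univ {α : MulAut G} {K U : Subgroup G} (hK : Inv α K) :
    Inv α (I α K U univ) := fun _ _ hx => I_shift hK (fun _ _ => mem_univ _) hx

theorem Inv.symm {α : MulAut G} {K : Subgroup G} (hK : Inv α K) : Inv α⁻¹ K := by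
  intro k x hx
  rw [inv_zpow']
  exact hK (-k) x hx

end Algebra

variable {G : Type*} [Group G] [TopologicalSpace G] [IsTopologicalGroup G] [T2Space G]

/-- All powers of α are continuous. -/
def Cont (α : MulAut G) : Prop := ∀ k : ℤ, Continuous (fun x => (α ^ k) x)

theorem Cont.symm {α : MulAut G} (h : Cont α) : Cont α⁻¹ := by
  intro k
  rw [inv_zpow']
  exact h (-k)

theorem I_closed {α : MulAut G} (hα : Cont α) {K U : Subgroup G} (hK : IsClosed (K : Set G))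
    (hU : IsClosed (U : Set G)) (S : Set ℤ) : IsClosed (I α K U S : Set G) := by
  have : (I α K U S : Set G) = (K : Set G) ∩ ⋂ k ∈ S, (fun x => (α ^ k) x) ⁻¹' (U : Set G) := by
    ext x
    simp only [SetLike.mem_coe, mem_I, mem_inter_iff, mem_iInter, mem_preimage]
  rw [this]
  exact hK.inter (isClosed_biInter fun k _ => hU.preimage (hα k))

theorem I_compact {α : MulAut G} (hα : Cont α) {K U : Subgroup G} (hK : IsClosed (K : Set G))
    (hU : IsCompact (U : Set G)) {S : Set ℤ} {k : ℤ} (hk : k ∈ S) :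
    IsCompact (I α K U S : Set G) := by
  have h1 : IsCompact ((fun x => (α ^ (-k)) x) '' (U : Set G)) := hU.image (hα (-k))
  refine h1.of_isClosed_subset (I_closed hα hK hU.isClosed S) ?_
  intro x hx
  refine ⟨(α ^ k) x, hx.2 k hk, ?_⟩
  simp only [zpow_apply_add, neg_add_cancel, zpow_zero, MulAut.one_apply]

theorem I_open {α : MulAut G} (hα : Cont α) {U : Subgroup G} (hU : IsOpen (U : Set G)) (a b : ℤ) :
    IsOpen (I α ⊤ U (Icc a b) : Set G) := by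
  have : (I α ⊤ U (Icc a b) : Set G)
      = ⋂ k ∈ Icc a b, (fun x => (α ^ k) x) ⁻¹' (U : Set G) := by
    ext x
    simp only [SetLike.mem_coe, mem_I, Subgroup.mem_top, true_and, mem_iInter, mem_preimage]
  rw [this]
  exact (Set.finite_Icc a b).isOpen_biInter fun k _ => hU.preimage (hα k)

/-- (A), first step. -/
theorem tidy_key {α : MulAut G} (hα : Cont α) {K U : Subgroup G} (hK : IsClosed (K : Set G))
    (hKi : Inv α K) (hU : IsCompact (U : Set G)) (hUo : IsOpen (U : Set G)) :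
    ∃ n₀ : ℕ, ∀ n : ℕ, n₀ ≤ n → ∀ x ∈ I α K U (Icc (-(n : ℤ)) 0),
      ∃ v ∈ I α K U (Iic 0), v⁻¹ * x ∈ I α K U (Icc (-(n : ℤ)) 1) := by
  have h1 : ∃ n₀ : ℕ, (I α K U (Icc (-(n₀ : ℤ) - 1) (-1)) : Set G) ⊆
      (I α K U (Iic (-1)) : Set G) * (U : Set G) := by
    refine exists_subset_nhds_of_isCompact'
      (V := fun n : ℕ => (I α K U (Icc (-(n : ℤ) - 1) (-1)) : Set G)) ?_ ?_ ?_ ?_
    · refine directed_of_isDirected_le ?_
      intro a b hab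
      refine I_anti (Icc_subset_Icc_left ?_)
      have : (a : ℤ) ≤ b := by exact_mod_cast hab
      linarith
    · intro n
      refine I_compact hα hK hU (k := -1) ⟨?_, le_refl _⟩
      have : (0 : ℤ) ≤ n := by positivity
      linarith
    · intro n
      exact I_closed hα hK hU.isClosed _
    · intro x hx
      have hx' : x ∈ I α K U (Iic (-1)) := by
        refine ⟨(mem_iInter.1 hx 0).1, fun k hk => ?_⟩
        have := (mem_iInter.1 hx (-k).toNat).2 k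
        refine this ⟨?_, hk⟩
        have hk' : k ≤ -1 := hk
        have : (0 : ℤ) ≤ -k := by linarith
        rw [Int.toNat_of_nonneg this]
        linarith
      have ho : IsOpen ((I α K U (Iic (-1)) : Set G) * (U : Set G)) := hUo.mul_left
      exact ho.mem_nhds ⟨x, hx', 1, U.one_mem, mul_one x⟩
  obtain ⟨n₀, hn₀⟩ := h1
  refine ⟨n₀, fun n hn x hx => ?_⟩
  have hnz : (n₀ : ℤ) ≤ n := by exact_mod_cast hn
  have h2 : (α ^ (1 : ℤ)) x ∈ I α K U (Icc (-(n₀ : ℤ) - 1) (-1)) := by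
    refine I_shift hKi (S := Icc (-(n : ℤ)) 0) ?_ hx
    rintro k ⟨hk1, hk2⟩
    exact ⟨by linarith, by linarith⟩
  obtain ⟨y, hy, u, hu, hyu⟩ := hn₀ h2
  have hyu : y * u = (α ^ (1 : ℤ)) x := hyu
  have hv : (α ^ (-1 : ℤ)) y ∈ I α K U (Iic 0) := by
    refine I_shift hKi (S := Iic (-1)) ?_ hy
    intro k hk
    have hk' : k ≤ 0 := hk
    show k + -1 ≤ -1
    linarith
  refine ⟨(α ^ (-1 : ℤ)) y, hv, ⟨K.mul_mem (K.inv_mem hv.1) hx.1, fun k hk => ?_⟩⟩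
  rcases eq_or_lt_of_le hk.2 with h | h
  · subst h
    have : (α ^ (1 : ℤ)) (((α ^ (-1 : ℤ)) y)⁻¹ * x) = u := by
      rw [map_mul, map_inv, zpow_apply_add, ← hyu]
      simp
    rw [this]
    exact hu
  · rw [map_mul, map_inv]
    refine U.mul_mem (U.inv_mem (hv.2 k ?_)) (hx.2 k ⟨hk.1, ?_⟩)
    · show k ≤ 0
      linarith [Int.lt_add_one_iff.1 (show k < 0 + 1 by simpa using h)]
    · linarith [Int.lt_add_one_iff.1 (show k < 0 + 1 by simpa using h)]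

/-- (A), all finite stages. -/
theorem tidy_fin {α : MulAut G} {K U : Subgroup G} (hKi : Inv α K) {n₀ : ℕ}
    (hkey : ∀ n : ℕ, n₀ ≤ n → ∀ x ∈ I α K U (Icc (-(n : ℤ)) 0),
      ∃ v ∈ I α K U (Iic 0), v⁻¹ * x ∈ I α K U (Icc (-(n : ℤ)) 1))
    {n : ℕ} (hn : n₀ ≤ n) {x : G} (hx : x ∈ I α K U (Icc (-(n : ℤ)) 0)) (j : ℕ) :
    ∃ u ∈ I α K U (Iic 0), u⁻¹ * x ∈ I α K U (Icc (-(n : ℤ)) j) := by
  induction j with
  | zero => exact ⟨1, Subgroup.one_mem _, by simpa using hx⟩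
  | succ j ih =>
    obtain ⟨u, hu, hy⟩ := ih
    have h1 : (α ^ (j : ℤ)) (u⁻¹ * x) ∈ I α K U (Icc (-((n + j : ℕ) : ℤ)) 0) := by
      refine I_shift hKi ?_ hy
      rintro k ⟨hk1, hk2⟩
      push_cast at hk1
      exact ⟨by linarith, by linarith⟩
    obtain ⟨v, hv, hw⟩ := hkey (n + j) (by omega) _ h1
    have hv' : (α ^ (-(j : ℤ))) v ∈ I α K U (Iic 0) := by
      refine I_shift hKi ?_ hv
      intro k hk
      have hk' : k ≤ 0 := hk
      show k + -(j : ℤ) ≤ 0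
      have : (0 : ℤ) ≤ j := by positivity
      linarith
    refine ⟨u * (α ^ (-(j : ℤ))) v, Subgroup.mul_mem _ hu hv', ?_⟩
    have h2 : (u * (α ^ (-(j : ℤ))) v)⁻¹ * x
        = (α ^ (-(j : ℤ))) (v⁻¹ * (α ^ (j : ℤ)) (u⁻¹ * x)) := by
      rw [map_mul (α ^ (-(j : ℤ))), zpow_apply_add, map_inv]
      simp [mul_assoc]
    rw [h2]
    refine I_shift hKi ?_ hw
    rintro k ⟨hk1, hk2⟩
    push_cast at hk2 ⊢
    exact ⟨by linarith, by linarith⟩

/-- (A): tidy above. -/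
theorem tidy {α : MulAut G} (hα : Cont α) {K U : Subgroup G} (hK : IsClosed (K : Set G))
    (hKi : Inv α K) (hU : IsCompact (U : Set G)) (hUo : IsOpen (U : Set G)) :
    ∃ n : ℕ, ∀ x ∈ I α K U (Icc (-(n : ℤ)) 0),
      ∃ u ∈ I α K U (Iic 0), u⁻¹ * x ∈ I α K U (Ici (-(n : ℤ))) := by
  obtain ⟨n₀, hkey⟩ := tidy_key hα hK hKi hU hUo
  refine ⟨n₀, fun x hx => ?_⟩
  have hne : (⋂ j : ℕ, {u : G | u ∈ I α K U (Iic 0) ∧
      u⁻¹ * x ∈ I α K U (Icc (-(n₀ : ℤ)) j)}).Nonempty := by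
    refine IsCompact.nonempty_iInter_of_sequence_nonempty_isCompact_isClosed _ ?_ ?_ ?_ ?_
    · rintro j u ⟨hu, hu'⟩
      refine ⟨hu, I_anti (Icc_subset_Icc_right ?_) hu'⟩
      push_cast
      linarith
    · intro j
      obtain ⟨u, hu, hu'⟩ := tidy_fin hKi hkey (le_refl _) hx j
      exact ⟨u, hu, hu'⟩
    · have : IsCompact (I α K U (Iic 0) : Set G) :=
        I_compact hα hK hU (k := 0) (by simp)
      refine this.of_isClosed_subset ?_ (fun u hu => hu.1)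
      exact (I_closed hα hK hU.isClosed _).inter
        ((I_closed hα hK hU.isClosed _).preimage (by fun_prop))
    · intro j
      exact (I_closed hα hK hU.isClosed _).inter
        ((I_closed hα hK hU.isClosed _).preimage (by fun_prop))
  obtain ⟨u, hu⟩ := hne
  rw [mem_iInter] at hu
  refine ⟨u, (hu 0).1, ⟨(hu 0).2.1, fun k hk => ?_⟩⟩
  have hk' : -(n₀ : ℤ) ≤ k := hk
  refine (hu k.toNat).2.2 k ⟨hk', ?_⟩
  exact Int.self_le_toNat k

/-- (B): shadowing. -/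
theorem shadow {α : MulAut G} (hα : Cont α) {K U : Subgroup G} (hK : IsCompact (K : Set G))
    (hKi : Inv α K) (hU : IsCompact (U : Set G)) {n : ℕ}
    (hdec : ∀ x ∈ I α K U (Icc (-(n : ℤ)) 0),
      ∃ u ∈ I α K U (Iic 0), u⁻¹ * x ∈ I α K U (Ici (-(n : ℤ))))
    (h : ℕ → G) (hh : ∀ i, h i ∈ K)
    (hs : ∀ i, h (i + 1) * ((α ^ (1 : ℤ)) (h i))⁻¹ ∈ I α K U (Icc (-(n : ℤ)) 0)) :
    ∃ y ∈ K, ∀ i : ℕ, (α ^ (i : ℤ)) y * (h i)⁻¹ ∈ I α K U (Icc (-(n : ℤ)) 0) := by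
  have hfin : ∀ N : ℕ, ∃ y ∈ K, ∀ i : ℕ, i ≤ N →
      (α ^ (i : ℤ)) y * (h i)⁻¹ ∈ I α K U (Icc (-(n : ℤ)) 0) := by
    intro N
    induction N with
    | zero =>
      refine ⟨h 0, hh 0, fun i hi => ?_⟩
      obtain rfl : i = 0 := by omega
      simpa using Subgroup.one_mem _
    | succ N ih =>
      obtain ⟨y, hy, hyi⟩ := ih
      obtain ⟨u, hu, hw⟩ := hdec _ (hyi N (le_refl _))
      refine ⟨(α ^ (-(N : ℤ))) u⁻¹ * y, K.mul_mem (hKi _ _ (K.inv_mem hu.1)) hy, ?_⟩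
      intro i hi
      rcases Nat.lt_or_ge N i with hlt | hge
      · obtain rfl : i = N + 1 := by omega
        have e1 : (α ^ (((N + 1 : ℕ)) : ℤ)) ((α ^ (-(N : ℤ))) u⁻¹ * y) * (h (N + 1))⁻¹
            = (α ^ (1 : ℤ)) (u⁻¹ * ((α ^ (N : ℤ)) y * (h N)⁻¹))
              * (h (N + 1) * ((α ^ (1 : ℤ)) (h N))⁻¹)⁻¹ := by
          simp only [map_mul, map_inv, zpow_apply_add]
          have e2 : (((N + 1 : ℕ)) : ℤ) + -(N : ℤ) = 1 := by push_cast; ring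
          have e3 : (1 : ℤ) + (N : ℤ) = (((N + 1 : ℕ)) : ℤ) := by push_cast; ring
          rw [e2, e3]
          group
        rw [e1]
        refine Subgroup.mul_mem _ ?_ (Subgroup.inv_mem _ (hs N))
        refine I_shift hKi ?_ hw
        rintro k ⟨hk1, hk2⟩
        show -(n : ℤ) ≤ k + 1
        linarith
      · have e1 : (α ^ (i : ℤ)) ((α ^ (-(N : ℤ))) u⁻¹ * y) * (h i)⁻¹
            = (α ^ ((i : ℤ) + -(N : ℤ))) u⁻¹ * ((α ^ (i : ℤ)) y * (h i)⁻¹) := by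
          rw [map_mul, zpow_apply_add, mul_assoc]
        rw [e1]
        refine Subgroup.mul_mem _ ?_ (hyi i hge)
        refine I_shift hKi ?_ (Subgroup.inv_mem _ hu)
        rintro k ⟨hk1, hk2⟩
        show k + ((i : ℤ) + -(N : ℤ)) ≤ 0
        have : (i : ℤ) ≤ N := by exact_mod_cast hge
        linarith
  have hcl : ∀ N : ℕ, IsClosed {y : G | y ∈ K ∧ ∀ i : ℕ, i ≤ N →
      (α ^ (i : ℤ)) y * (h i)⁻¹ ∈ I α K U (Icc (-(n : ℤ)) 0)} := by
    intro N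
    have : {y : G | y ∈ K ∧ ∀ i : ℕ, i ≤ N →
        (α ^ (i : ℤ)) y * (h i)⁻¹ ∈ I α K U (Icc (-(n : ℤ)) 0)} = (K : Set G) ∩
        ⋂ i : ℕ, ⋂ _ : i ≤ N, (fun y => (α ^ (i : ℤ)) y * (h i)⁻¹) ⁻¹'
          (I α K U (Icc (-(n : ℤ)) 0) : Set G) := by
      ext y
      simp only [mem_setOf_eq, mem_inter_iff, SetLike.mem_coe, mem_iInter, mem_preimage]
    rw [this]
    refine hK.isClosed.inter (isClosed_iInter fun i => isClosed_iInter fun _ => ?_)
    exact (I_closed hα hK.isClosed hU.isClosed _).preimage ((hα i).mul continuous_const)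
  have hne : (⋂ N : ℕ, {y : G | y ∈ K ∧ ∀ i : ℕ, i ≤ N →
      (α ^ (i : ℤ)) y * (h i)⁻¹ ∈ I α K U (Icc (-(n : ℤ)) 0)}).Nonempty := by
    refine IsCompact.nonempty_iInter_of_sequence_nonempty_isCompact_isClosed _ ?_ ?_ ?_ hcl
    · rintro N y ⟨hy, hy'⟩
      exact ⟨hy, fun i hi => hy' i (by omega)⟩
    · intro N
      obtain ⟨y, hy, hy'⟩ := hfin N
      exact ⟨y, hy, hy'⟩
    · exact hK.of_isClosed_subset (hcl 0) (fun y hy => hy.1)
  obtain ⟨y, hy⟩ := hne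
  rw [mem_iInter] at hy
  exact ⟨y, (hy 0).1, fun i => (hy i).2 i (le_refl _)⟩

/-- The forward orbit of x converges to K. -/
def ToK (α : MulAut G) (K : Subgroup G) (x : G) : Prop :=
  ∀ O : Set G, IsOpen O → (K : Set G) ⊆ O → ∀ᶠ i : ℕ in atTop, (α ^ (i : ℤ)) x ∈ O

/-- (C). -/
theorem correct {α : MulAut G} (hα : Cont α) {K W : Subgroup G} (hK : IsCompact (K : Set G))
    (hKi : Inv α K) (hW : IsCompact (W : Set G)) (hWo : IsOpen (W : Set G)) {x : G}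
    (hx : ToK α K x) : ∃ k ∈ K, ∀ᶠ i : ℕ in atTop, (α ^ (i : ℤ)) (x * k) ∈ W := by
  obtain ⟨n, hdec⟩ := tidy hα hK.isClosed hKi hW hWo
  have hLo : IsOpen (I α ⊤ W (Icc (-(n : ℤ)) 1) : Set G) := I_open hα hWo _ _
  have hO : IsOpen ((I α ⊤ W (Icc (-(n : ℤ)) 1) : Set G) * (K : Set G)) := hLo.mul_right
  obtain ⟨i₁, hi₁⟩ := eventually_atTop.1 (hx _ hO (fun k hk =>
    ⟨1, Subgroup.one_mem _, k, hk, one_mul k⟩))
  have hch : ∀ i : ℕ, ∃ l h : G, l ∈ I α ⊤ W (Icc (-(n : ℤ)) 1) ∧ h ∈ K ∧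
      (α ^ (((i₁ + i : ℕ)) : ℤ)) x = l * h := by
    intro i
    obtain ⟨l, hl, h, hh, e⟩ := hi₁ (i₁ + i) (by omega)
    exact ⟨l, h, hl, hh, e.symm⟩
  choose l h hl hh he using hch
  have hs : ∀ i, h (i + 1) * ((α ^ (1 : ℤ)) (h i))⁻¹ ∈ I α K W (Icc (-(n : ℤ)) 0) := by
    intro i
    have e1 : (α ^ (1 : ℤ)) ((α ^ (((i₁ + i : ℕ)) : ℤ)) x)
        = (α ^ (((i₁ + (i + 1) : ℕ)) : ℤ)) x := by
      rw [zpow_apply_add]
      congr 2
      push_cast
      ring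
    rw [he i, he (i + 1), map_mul] at e1
    have e2 : h (i + 1) * ((α ^ (1 : ℤ)) (h i))⁻¹ = (l (i + 1))⁻¹ * (α ^ (1 : ℤ)) (l i) := by
      have : h (i + 1) = (l (i + 1))⁻¹ * ((α ^ (1 : ℤ)) (l i) * (α ^ (1 : ℤ)) (h i)) := by
        rw [e1]
        group
      rw [this]
      group
    have hp : h (i + 1) * ((α ^ (1 : ℤ)) (h i))⁻¹ ∈ I α ⊤ W (Icc (-(n : ℤ)) 0) := by
      rw [e2]
      refine Subgroup.mul_mem _ (Subgroup.inv_mem _ (I_anti (Icc_subset_Icc_right (by norm_num))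
        (hl (i + 1)))) ?_
      refine I_shift (inv_top α) ?_ (hl i)
      rintro k ⟨hk1, hk2⟩
      exact ⟨by linarith, by linarith⟩
    exact ⟨K.mul_mem (hh (i + 1)) (K.inv_mem (hKi _ _ (hh i))), hp.2⟩
  obtain ⟨y, hy, hyi⟩ := shadow hα hK hKi hW hdec h hh hs
  refine ⟨(α ^ (-(i₁ : ℤ))) y⁻¹, hKi _ _ (K.inv_mem hy), eventually_atTop.2 ⟨i₁, ?_⟩⟩
  intro b hb
  obtain ⟨i, rfl⟩ := Nat.exists_eq_add_of_le hb
  have e1 : (α ^ (((i₁ + i : ℕ)) : ℤ)) (x * (α ^ (-(i₁ : ℤ))) y⁻¹)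
      = l i * ((α ^ (i : ℤ)) y * (h i)⁻¹)⁻¹ := by
    rw [map_mul, he i, zpow_apply_add, map_inv]
    have e2 : (((i₁ + i : ℕ)) : ℤ) + -(i₁ : ℤ) = i := by push_cast; ring
    rw [e2]
    group
  rw [e1]
  have h1 := (hl i).2 0 ⟨by simp, by norm_num⟩
  have h2 := (hyi i).2 0 ⟨by simp, le_refl _⟩
  simp only [zpow_zero, MulAut.one_apply] at h1 h2
  exact W.mul_mem h1 (W.inv_mem h2)

end Pool.Agent.Lib.MP7d449a
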